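import Mathlib

set_option autoImplicit false

/-!
# The frame of the antisymmetrizer on tensors (project ZL, subtask 719)

`altM K κ k` is the antisymmetrizer on `(K^κ)^{⊗k}` in coordinates.  It factors as `A * B` through
a space of dimension `(card κ).choose k`, with `B * A = 1`.
-/

namespace N943.ZL

open Equiv in
def permM (K κ : Type*) [Field K] [DecidableEq κ] {k : ℕ} (σ : Perm (Fin k)) :
    Matrix (Fin k → κ) (Fin k → κ) K :=
  fun J I => if J ∘ σ = I then 1 else 0

open Equiv in
def altM (K κ : Type*) [Field K] [DecidableEq κ] (k : ℕ) : Matrix (Fin k → κ) (Fin k → κ) K :=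
  ((Nat.factorial k : ℕ) : K)⁻¹ • ∑ σ : Perm (Fin k), ((Perm.sign σ : ℤ) : K) • permM K κ σ

/-- An arbitrary enumeration of a `k`-element subset. -/
noncomputable def enum {κ : Type*} {k : ℕ} (s : {s : Finset κ // s.card = k}) : Fin k → κ :=
  fun i => ((s.1.equivFinOfCardEq s.2).symm i : κ)

lemma enum_injective {κ : Type*} {k : ℕ} (s : {s : Finset κ // s.card = k}) :
    Function.Injective (enum s) := fun _ _ h =>
  (s.1.equivFinOfCardEq s.2).symm.injective (Subtype.ext h)

lemma range_enum {κ : Type*} {k : ℕ} (s : {s : Finset κ // s.card = k}) :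
    Set.range (enum s) = (s.1 : Set κ) := by
  ext x
  constructor
  · rintro ⟨i, rfl⟩
    exact ((s.1.equivFinOfCardEq s.2).symm i).2
  · intro hx
    refine ⟨(s.1.equivFinOfCardEq s.2) ⟨x, hx⟩, ?_⟩
    simp [enum]

lemma range_comp_perm {κ : Type*} {k : ℕ} (f : Fin k → κ) (σ : Equiv.Perm (Fin k)) :
    Set.range (f ∘ σ) = Set.range f := by
  rw [Set.range_comp, Equiv.range_eq_univ, Set.image_univ]

lemma enum_comp_ne {κ : Type*} {k : ℕ} {s t : {s : Finset κ // s.card = k}} (hst : s ≠ t)
    (σ τ : Equiv.Perm (Fin k)) : enum s ∘ σ ≠ enum t ∘ τ := by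
  intro h
  apply hst
  have h1 : Set.range (enum s ∘ σ) = Set.range (enum t ∘ τ) := by rw [h]
  rw [range_comp_perm, range_comp_perm, range_enum, range_enum] at h1
  exact Subtype.ext (Finset.coe_injective h1)

lemma comp_perm_injective {κ : Type*} {k : ℕ} {f : Fin k → κ} (hf : Function.Injective f)
    {σ τ : Equiv.Perm (Fin k)} (h : f ∘ σ = f ∘ τ) : σ = τ := by
  ext i
  have := congrFun h i
  simp only [Function.comp_apply] at this
  rw [hf this]

/-- An injective word is a rearrangement of the enumeration of its set of letters. -/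
lemma exists_enum_comp {κ : Type*} {k : ℕ} (J : Fin k → κ) (hJ : Function.Injective J) :
    ∃ (s : {s : Finset κ // s.card = k}) (τ : Equiv.Perm (Fin k)), enum s ∘ τ = J := by
  classical
  let s : {s : Finset κ // s.card = k} :=
    ⟨Finset.univ.image J, by rw [Finset.card_image_of_injective _ hJ, Finset.card_univ,
      Fintype.card_fin]⟩
  have hmem : ∀ i, J i ∈ s.1 := fun i => Finset.mem_image_of_mem _ (Finset.mem_univ i)
  let g : Fin k → Fin k := fun i => (s.1.equivFinOfCardEq s.2) ⟨J i, hmem i⟩
  have hg : Function.Injective g := by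
    intro i j hij
    have := (s.1.equivFinOfCardEq s.2).injective hij
    exact hJ (congrArg Subtype.val this)
  refine ⟨s, Equiv.ofBijective g (Finite.injective_iff_bijective.mp hg), ?_⟩
  funext i
  simp [enum, g]

theorem altM_frame (K κ : Type*) [Field K] [CharZero K] [Fintype κ] [DecidableEq κ] (k : ℕ) :
    ∃ (A : Matrix (Fin k → κ) (Fin ((Fintype.card κ).choose k)) K)
      (B : Matrix (Fin ((Fintype.card κ).choose k)) (Fin k → κ) K),
      A * B = altM K κ k ∧ B * A = 1 := by
  classical
  have hcard : Fintype.card {s : Finset κ // s.card = k} = (Fintype.card κ).choose k :=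
    Fintype.card_finset_len k
  let e : Fin ((Fintype.card κ).choose k) ≃ {s : Finset κ // s.card = k} :=
    (Fintype.equivFinOfCardEq hcard).symm
  let c : K := ((Nat.factorial k : ℕ) : K)⁻¹
  have hc : c * ((Nat.factorial k : ℕ) : K) = 1 :=
    inv_mul_cancel₀ (by exact_mod_cast Nat.factorial_ne_zero k)
  let sg : Equiv.Perm (Fin k) → K := fun σ => ((Equiv.Perm.sign σ : ℤ) : K)
  have sg_mul : ∀ σ τ, sg (σ * τ) = sg σ * sg τ := by
    intro σ τ
    simp [sg, Equiv.Perm.sign_mul]
  have sg_sq : ∀ σ, sg σ * sg σ = 1 := by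
    intro σ
    rcases Int.units_eq_one_or (Equiv.Perm.sign σ) with h | h <;> simp [sg, h]
  let B0 : {s : Finset κ // s.card = k} → (Fin k → κ) → K :=
    fun s I => ∑ τ : Equiv.Perm (Fin k), if enum s ∘ τ = I then sg τ else 0
  -- the value of `B0` at a rearranged enumeration
  have B0_same : ∀ s (τ : Equiv.Perm (Fin k)), B0 s (enum s ∘ τ) = sg τ := by
    intro s τ
    simp only [B0]
    rw [Finset.sum_eq_single τ]
    · simp
    · intro ρ _ hρ
      rw [if_neg]
      intro h
      exact hρ (comp_perm_injective (enum_injective s) h)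
    · intro h
      exact absurd (Finset.mem_univ _) h
  have B0_ne : ∀ s t (τ : Equiv.Perm (Fin k)), s ≠ t → B0 s (enum t ∘ τ) = 0 := by
    intro s t τ hst
    simp only [B0]
    apply Finset.sum_eq_zero
    intro ρ _
    rw [if_neg (enum_comp_ne hst ρ τ)]
  have B0_noninj : ∀ s J, ¬ Function.Injective J → B0 s J = 0 := by
    intro s J hJ
    simp only [B0]
    apply Finset.sum_eq_zero
    intro ρ _
    rw [if_neg]
    intro h
    apply hJ
    rw [← h]
    exact (enum_injective s).comp ρ.injective
  refine ⟨Matrix.of fun J i => c * B0 (e i) J, Matrix.of fun i I => B0 (e i) I, ?_, ?_⟩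
  · ext J I
    rw [Matrix.mul_apply]
    simp only [Matrix.of_apply]
    have hR : altM K κ k J I = c * ∑ σ : Equiv.Perm (Fin k), if J ∘ σ = I then sg σ else 0 := by
      simp only [altM, Matrix.smul_apply, Matrix.sum_apply, permM, smul_eq_mul, c, sg]
      congr 1
      apply Finset.sum_congr rfl
      intro σ _
      split_ifs <;> simp
    rw [hR]
    have hL : ∑ i, c * B0 (e i) J * B0 (e i) I = c * ∑ s, B0 s J * B0 s I := by
      rw [Finset.mul_sum, ← Equiv.sum_comp e (fun s => c * (B0 s J * B0 s I))]
      apply Finset.sum_congr rfl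
      intro i _
      ring
    rw [hL]
    congr 1
    by_cases hJ : Function.Injective J
    · obtain ⟨s, τ, rfl⟩ := exists_enum_comp J hJ
      rw [Finset.sum_eq_single s]
      · rw [B0_same]
        simp only [B0]
        rw [Finset.mul_sum, ← Equiv.sum_comp (Equiv.mulLeft τ)]
        apply Finset.sum_congr rfl
        intro σ _
        have h1 : (enum s ∘ (Equiv.mulLeft τ σ : Equiv.Perm (Fin k))) = (enum s ∘ τ) ∘ σ := by
          funext i
          simp
        rw [h1]
        split_ifs
        · rw [Equiv.coe_mulLeft, sg_mul, ← mul_assoc, sg_sq, one_mul]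
        · rw [mul_zero]
      · intro t _ hts
        rw [B0_ne t s τ hts, zero_mul]
      · intro h
        exact absurd (Finset.mem_univ _) h
    · have h0 : ∑ s, B0 s J * B0 s I = 0 := by
        apply Finset.sum_eq_zero
        intro s _
        rw [B0_noninj s J hJ, zero_mul]
      rw [h0]
      rw [Function.Injective] at hJ
      push Not at hJ
      obtain ⟨i, j, hij, hne⟩ := hJ
      have hswap : J ∘ (Equiv.swap i j) = J := by
        funext x
        simp only [Function.comp_apply]
        rcases eq_or_ne x i with rfl | hxi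
        · rw [Equiv.swap_apply_left]; exact hij.symm
        · rcases eq_or_ne x j with rfl | hxj
          · rw [Equiv.swap_apply_right]; exact hij
          · rw [Equiv.swap_apply_of_ne_of_ne hxi hxj]
      have hsum : (∑ σ : Equiv.Perm (Fin k), if J ∘ σ = I then sg σ else 0)
          = - ∑ σ : Equiv.Perm (Fin k), if J ∘ σ = I then sg σ else 0 := by
        conv_lhs => rw [← Equiv.sum_comp (Equiv.mulLeft (Equiv.swap i j))]
        rw [← Finset.sum_neg_distrib]
        apply Finset.sum_congr rfl
        intro σ _
        have h1 : (J ∘ (Equiv.mulLeft (Equiv.swap i j) σ : Equiv.Perm (Fin k))) = J ∘ σ := by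
          conv_rhs => rw [← hswap]
          funext x
          simp
        rw [h1]
        split_ifs
        · rw [Equiv.coe_mulLeft, sg_mul]
          have : sg (Equiv.swap i j) = -1 := by simp [sg, Equiv.Perm.sign_swap hne]
          rw [this]; ring
        · simp
      have := self_eq_neg.mp hsum
      rw [this]
  · ext i j
    rw [Matrix.mul_apply]
    simp only [Matrix.of_apply]
    -- `∑ I, B0 s I * (c * B0 t I)`
    have key : ∀ s t, ∑ I, B0 s I * (c * B0 t I)
        = ∑ τ : Equiv.Perm (Fin k), c * (sg τ * B0 s (enum t ∘ τ)) := by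
      intro s t
      have : ∀ I, B0 s I * (c * B0 t I)
          = ∑ τ : Equiv.Perm (Fin k), if enum t ∘ τ = I then c * (sg τ * B0 s I) else 0 := by
        intro I
        simp only [B0]
        rw [Finset.mul_sum, Finset.mul_sum]
        apply Finset.sum_congr rfl
        intro τ _
        split_ifs
        · ring
        · simp
      simp_rw [this]
      rw [Finset.sum_comm]
      apply Finset.sum_congr rfl
      intro τ _
      rw [Finset.sum_ite_eq]
      simp
    rw [key]
    by_cases hij : i = j
    · subst hij
      simp_rw [B0_same, sg_sq]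
      rw [Finset.sum_const, Finset.card_univ, Fintype.card_perm, Fintype.card_fin, nsmul_eq_mul,
        mul_one, mul_comm, hc, Matrix.one_apply_eq]
    · rw [Matrix.one_apply_ne hij]
      apply Finset.sum_eq_zero
      intro τ _
      rw [B0_ne _ _ _ (fun h => hij (e.injective h)), mul_zero, mul_zero]

end N943.ZL
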